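import Pool.Agent.Helper67.Split

set_option autoImplicit false
set_option linter.unusedSectionVars false
open MeasureTheory FourierTransform SchwartzMap
open scoped RealInnerProductSpace

namespace Pool.Agent.Helper67

section

variable {a b n : Type*} [Fintype a] [Fintype b] [Fintype n]

lemma finrank_Cfg_unit : Module.finrank ℝ (Cfg Unit) = 3 := by
  simp [Cfg]

lemma norm_cfg_unit (x : Cfg Unit) :
    ‖x‖ = Real.sqrt (∑ c : Fin 3, (WithLp.ofLp x ((), c)) ^ 2) := by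
  rw [EuclideanSpace.norm_eq]
  simp only [Real.norm_eq_abs, sq_abs]
  rw [Fintype.sum_prod_type]
  simp

lemma att_integrable [DecidableEq n] (f : 𝓢(Cfg n, ℂ)) (i : n) (P : Fin 3 → ℝ) :
    Integrable (fun x : Cfg n => 1 / dp x i P * ‖f x‖ ^ 2) := by
  rw [integrable_J (single i)]
  have h := coulomb_integrable (V := Cfg Unit) (W := Cfg {j : n // j ≠ i}) finrank_Cfg_unit
    (a := fun _ => WithLp.toLp 2 (fun p => P p.2)) continuous_const (pull (single i) f)
  refine h.congr (Filter.Eventually.of_forall fun p => ?_)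
  obtain ⟨x, y⟩ := p
  simp only [pull_apply]
  congr 1
  have h1 := dp_J (single i) x y () P
  rw [single_inl] at h1
  rw [h1, norm_cfg_unit, one_div]
  simp [dp]

lemma rep_integrable [DecidableEq n] (f : 𝓢(Cfg n, ℂ)) (i j : n) (hij : i ≠ j) :
    Integrable (fun x : Cfg n => 1 / dd x i j * ‖f x‖ ^ 2) := by
  rw [integrable_J (single i)]
  have hj : j ≠ i := hij.symm
  have h := coulomb_integrable (V := Cfg Unit) (W := Cfg {j : n // j ≠ i}) finrank_Cfg_unit
    (a := fun y => WithLp.toLp 2 (fun p => WithLp.ofLp y (⟨j, hj⟩, p.2)))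
      (by fun_prop) (pull (single i) f)
  refine h.congr (Filter.Eventually.of_forall fun p => ?_)
  obtain ⟨x, y⟩ := p
  simp only [pull_apply]
  congr 1
  have h1 := fun c => J_inl (single i) x y () c
  have h2 := fun c => J_inr (single i) x y ⟨j, hj⟩ c
  simp only [single_inl, single_inr] at h1 h2
  rw [norm_cfg_unit, one_div]
  simp [dd, h1, h2]

/-- Kinetic energy of particle `i`. -/
noncomputable def kin (f : 𝓢(Cfg n, ℂ)) (i : n) : ℝ :=
  ∫ k : Cfg n, (2 * Real.pi * mm k i) * ‖(𝓕 f) k‖ ^ 2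

/-- Repulsion of particles `i` and `j`. -/
noncomputable def rep (f : 𝓢(Cfg n, ℂ)) (i j : n) : ℝ :=
  ∫ x : Cfg n, (1 / dd x i j) * ‖f x‖ ^ 2

/-- Attraction of particle `i` to the point `P`. -/
noncomputable def att (f : 𝓢(Cfg n, ℂ)) (i : n) (P : Fin 3 → ℝ) : ℝ :=
  ∫ x : Cfg n, (1 / dp x i P) * ‖f x‖ ^ 2

/-- Squared norm. -/
noncomputable def nrm (f : 𝓢(Cfg n, ℂ)) : ℝ := ∫ x : Cfg n, ‖f x‖ ^ 2

lemma kin_integrable (f : 𝓢(Cfg n, ℂ)) (i : n) :
    Integrable (fun k : Cfg n => (2 * Real.pi * mm k i) * ‖(𝓕 f) k‖ ^ 2) := by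
  apply weight_integrable (𝓕 f) (g := fun k => 2 * Real.pi * mm k i) (A := 2 * Real.pi)
  · have := mm_continuous i
    fun_prop
  · intro x
    have h1 := mm_nonneg x i
    have h2 := mm_le x i
    rw [abs_of_nonneg (by positivity)]
    have := Real.pi_pos
    nlinarith [norm_nonneg x]

lemma nrm_integrable (f : 𝓢(Cfg n, ℂ)) :
    Integrable (fun x : Cfg n => ‖f x‖ ^ 2) := by
  have := weight_integrable f (g := fun _ => 1) (A := 1) (by fun_prop) (by intro x; simp)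
  simpa using this

/-- Slices of a many particle function. -/
noncomputable def slc (e : a ⊕ b ≃ n) (f : 𝓢(Cfg n, ℂ)) (y : Cfg b) : 𝓢(Cfg a, ℂ) :=
  sliceL (pull e f) y

lemma slc_apply (e : a ⊕ b ≃ n) (f : 𝓢(Cfg n, ℂ)) (y : Cfg b) (x : Cfg a) :
    slc e f y x = f (J e (WithLp.toLp 2 (x, y))) := rfl

/-- Fubini for multiplication operators acting on the `a` particles. -/
lemma mult_slc (e : a ⊕ b ≃ n) (f : 𝓢(Cfg n, ℂ)) (v : Cfg a → ℝ) (u : Cfg n → ℝ)
    (huv : ∀ x y, u (J e (WithLp.toLp 2 (x, y))) = v x)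
    (hi : Integrable (fun x : Cfg n => u x * ‖f x‖ ^ 2)) :
    Integrable (fun y : Cfg b => ∫ x : Cfg a, v x * ‖slc e f y x‖ ^ 2) ∧
    ∫ x : Cfg n, u x * ‖f x‖ ^ 2 = ∫ y : Cfg b, ∫ x : Cfg a, v x * ‖slc e f y x‖ ^ 2 := by
  have h1 : Integrable (fun p : Cfg a × Cfg b => v p.1 * ‖slc e f p.2 p.1‖ ^ 2) := by
    rw [integrable_J e] at hi
    refine hi.congr (Filter.Eventually.of_forall fun p => ?_)
    simp only [slc_apply]
    rw [← huv p.1 p.2]
  rw [Measure.volume_eq_prod] at h1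
  refine ⟨h1.integral_prod_right, ?_⟩
  rw [integral_J e, ← integral_prod_symm _ h1]
  congr 1
  funext p
  simp only [slc_apply]
  rw [← huv p.1 p.2]

lemma att_slc [DecidableEq n] (e : a ⊕ b ≃ n) (f : 𝓢(Cfg n, ℂ)) (i : a) (P : Fin 3 → ℝ) :
    Integrable (fun y : Cfg b => att (slc e f y) i P) ∧
    att f (e (Sum.inl i)) P = ∫ y : Cfg b, att (slc e f y) i P :=
  mult_slc e f (fun x => 1 / dp x i P) (fun x => 1 / dp x (e (Sum.inl i)) P)
    (fun x y => by simp only [dp_J]) (att_integrable f _ P)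

lemma rep_slc [DecidableEq n] (e : a ⊕ b ≃ n) (f : 𝓢(Cfg n, ℂ)) (i j : a) (hij : i ≠ j) :
    Integrable (fun y : Cfg b => rep (slc e f y) i j) ∧
    rep f (e (Sum.inl i)) (e (Sum.inl j)) = ∫ y : Cfg b, rep (slc e f y) i j :=
  mult_slc e f (fun x => 1 / dd x i j) (fun x => 1 / dd x (e (Sum.inl i)) (e (Sum.inl j)))
    (fun x y => by simp only [dd_J]) (rep_integrable f _ _ (by
      intro h
      exact hij (Sum.inl_injective (e.injective h))))

lemma nrm_slc (e : a ⊕ b ≃ n) (f : 𝓢(Cfg n, ℂ)) :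
    Integrable (fun y : Cfg b => nrm (slc e f y)) ∧
    nrm f = ∫ y : Cfg b, nrm (slc e f y) := by
  have := mult_slc e f (fun _ => 1) (fun _ => 1) (fun x y => rfl)
    (by simpa using nrm_integrable f)
  simpa [nrm] using this

lemma fourier_slc (e : a ⊕ b ≃ n) (f : 𝓢(Cfg n, ℂ)) (y : Cfg b) (k : Cfg a) :
    (𝓕 (slc e f y)) k = pF (pull e f) k y := rfl

lemma kin_slc (e : a ⊕ b ≃ n) (f : 𝓢(Cfg n, ℂ)) (i : a) :
    Integrable (fun y : Cfg b => kin (slc e f y) i) ∧
    kin f (e (Sum.inl i)) = ∫ y : Cfg b, kin (slc e f y) i := by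
  have hb : ∀ x : Cfg a, |2 * Real.pi * mm x i| ≤ 2 * Real.pi * (1 + ‖x‖) := by
    intro x
    have h1 := mm_nonneg x i
    have h2 := mm_le x i
    rw [abs_of_nonneg (by positivity)]
    have := Real.pi_pos
    nlinarith [norm_nonneg x]
  obtain ⟨h1, h2⟩ := pF_weight_integrable (pull e f) (w := fun k => 2 * Real.pi * mm k i)
    (A := 2 * Real.pi) (by have := mm_continuous i; fun_prop) hb
    (fun x => by have := mm_nonneg x i; positivity)
  rw [Measure.volume_eq_prod] at h1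
  refine ⟨h1.integral_prod_right, ?_⟩
  unfold kin
  rw [integral_J e]
  have h3 : ∫ p : Cfg a × Cfg b, 2 * Real.pi * mm (J e (WithLp.toLp 2 p)) (e (Sum.inl i)) *
      ‖(𝓕 f) (J e (WithLp.toLp 2 p))‖ ^ 2 =
      ∫ p : Cfg a × Cfg b, 2 * Real.pi * mm p.1 i * ‖(𝓕 (pull e f)) (WithLp.toLp 2 p)‖ ^ 2 := by
    congr 1
    funext p
    obtain ⟨x, y⟩ := p
    rw [mm_J, fourier_pull]
  rw [h3, ← h2, Measure.volume_eq_prod, integral_prod_symm _ h1]
  rfl

end

end Pool.Agent.Helper67
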