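import Pool.Agent.Helper67.Plancherel

set_option autoImplicit false
set_option linter.unusedSectionVars false
open MeasureTheory FourierTransform SchwartzMap
open scoped RealInnerProductSpace

namespace Pool.Agent.Helper67

section Abstract

variable {V W : Type*} [NormedAddCommGroup V] [InnerProductSpace ℝ V] [FiniteDimensional ℝ V]
  [MeasurableSpace V] [BorelSpace V]
  [NormedAddCommGroup W] [InnerProductSpace ℝ W] [FiniteDimensional ℝ W]
  [MeasurableSpace W] [BorelSpace W]

/-- Truncated Coulomb kernel. -/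
noncomputable def hC (x : V) : ℝ := (Metric.ball (0 : V) 1).indicator (fun x => ‖x‖⁻¹) x

lemma hC_nonneg (x : V) : 0 ≤ hC x := by
  unfold hC
  apply Set.indicator_nonneg
  intro x _
  positivity

lemma hC_measurable : Measurable (hC : V → ℝ) := by
  unfold hC
  exact Measurable.indicator (by fun_prop) measurableSet_ball

lemma hC_integrable (hV : Module.finrank ℝ V = 3) : Integrable (hC : V → ℝ) := by
  unfold hC
  have : Nontrivial V := Module.nontrivial_of_finrank_pos (R := ℝ) (by omega)
  rw [integrable_indicator_iff measurableSet_ball]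
  rw [integrableOn_fun_norm_addHaar (volume : Measure V) (f := fun r : ℝ => r⁻¹) (r := 1)]
  rw [hV]
  have h : IntegrableOn (fun y : ℝ => y) (Set.Ioo 0 1) := by
    have : IntegrableOn (fun y : ℝ => y) (Set.Icc 0 1) :=
      Continuous.integrableOn_Icc continuous_id
    exact this.mono_set Set.Ioo_subset_Icc_self
  refine (integrableOn_congr_fun ?_ measurableSet_Ioo).mpr h
  intro y hy
  have : y ≠ 0 := ne_of_gt hy.1
  simp only [smul_eq_mul]
  field_simp

lemma inv_norm_le (x : V) : ‖x‖⁻¹ ≤ hC x + 1 := by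
  unfold hC
  by_cases h : x ∈ Metric.ball (0 : V) 1
  · rw [Set.indicator_of_mem h]
    linarith
  · rw [Set.indicator_of_notMem h]
    have : 1 ≤ ‖x‖ := by simpa using h
    have := inv_le_one_of_one_le₀ this
    linarith

/-- Integrability of a Coulomb singularity against a Schwartz density. -/
lemma coulomb_integrable (hV : Module.finrank ℝ V = 3) {a : W → V} (ha : Continuous a)
    (F : 𝓢(WithLp 2 (V × W), ℂ)) :
    Integrable (fun p : V × W => ‖p.1 - a p.2‖⁻¹ * ‖F (WithLp.toLp 2 p)‖ ^ 2) := by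
  obtain ⟨C, hC0, hCb⟩ := schwartz_decay F 0 (Module.finrank ℝ W + 1)
  obtain ⟨D, hD0, hDb⟩ := schwartz_decay F 0 0
  have hint : Integrable (fun y : W => (1 + ‖y‖) ^ (-((Module.finrank ℝ W + 1 : ℕ) : ℝ))) := by
    apply integrable_one_add_norm
    push_cast
    linarith
  have hFm : Continuous (fun p : V × W => F (WithLp.toLp 2 p)) := by fun_prop
  have ham : Measurable (fun p : V × W => p.1 - a p.2) := by
    have : Continuous (fun p : V × W => p.1 - a p.2) := by fun_prop
    exact this.measurable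
  have h1 : Integrable (fun p : V × W => hC (p.1 - a p.2) *
      (C * D * (1 + ‖p.2‖) ^ (-((Module.finrank ℝ W + 1 : ℕ) : ℝ)))) := by
    rw [Measure.volume_eq_prod, integrable_prod_iff']
    · constructor
      · refine Filter.Eventually.of_forall fun y => ?_
        change Integrable (fun x : V => hC (x - a y) *
            (C * D * (1 + ‖y‖) ^ (-((Module.finrank ℝ W + 1 : ℕ) : ℝ))))
        apply Integrable.mul_const
        exact (hC_integrable hV).comp_sub_right (a y)
      · have : (fun y : W => ∫ x : V, ‖hC (x - a y) *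
            (C * D * (1 + ‖y‖) ^ (-((Module.finrank ℝ W + 1 : ℕ) : ℝ)))‖) =
            fun y => (∫ x : V, hC x) *
            (C * D * (1 + ‖y‖) ^ (-((Module.finrank ℝ W + 1 : ℕ) : ℝ))) := by
          funext y
          have h2 : ∀ x : V, ‖hC (x - a y) *
            (C * D * (1 + ‖y‖) ^ (-((Module.finrank ℝ W + 1 : ℕ) : ℝ)))‖ = hC (x - a y) *
            (C * D * (1 + ‖y‖) ^ (-((Module.finrank ℝ W + 1 : ℕ) : ℝ))) := by
            intro x
            rw [Real.norm_of_nonneg]
            exact mul_nonneg (hC_nonneg _) (by positivity)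
          simp_rw [h2]
          rw [integral_mul_const, integral_sub_right_eq_self (fun x => hC x) (a y)]
        rw [this]
        exact (hint.const_mul _).const_mul _
    · apply Measurable.aestronglyMeasurable
      apply Measurable.mul
      · exact hC_measurable.comp ham
      · fun_prop
  have h2 : Integrable (fun p : V × W => D * ‖F (WithLp.toLp 2 p)‖) :=
    (schwartz_integrable_prod F).norm.const_mul _
  refine Integrable.mono' (h1.add h2) ?_ ?_
  · apply Measurable.aestronglyMeasurable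
    apply Measurable.mul
    · exact (measurable_norm.comp ham).inv
    · exact (hFm.measurable.norm).pow_const 2
  · refine Filter.Eventually.of_forall fun p => ?_
    rw [Real.norm_of_nonneg (by positivity)]
    have e1 := inv_norm_le (p.1 - a p.2)
    have e2 := hCb p.1 p.2
    have e3 := hDb p.1 p.2
    simp only [CharP.cast_eq_zero, neg_zero, Real.rpow_zero, one_mul, mul_one] at e2 e3
    have e4 : ‖F (WithLp.toLp 2 p)‖ ≤ D := e3
    have e5 : ‖F (WithLp.toLp 2 p)‖ ≤
      C * (1 + ‖p.2‖) ^ (-((Module.finrank ℝ W + 1 : ℕ) : ℝ)) := e2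
    have e6 : ‖F (WithLp.toLp 2 p)‖ ^ 2 ≤
      (C * (1 + ‖p.2‖) ^ (-((Module.finrank ℝ W + 1 : ℕ) : ℝ))) * D := by
      rw [sq]
      exact mul_le_mul e5 e4 (norm_nonneg _) (by positivity)
    have e7 : ‖F (WithLp.toLp 2 p)‖ ^ 2 ≤ D * ‖F (WithLp.toLp 2 p)‖ := by
      rw [sq]
      exact mul_le_mul_of_nonneg_right e4 (norm_nonneg _)
    have e8 := hC_nonneg (p.1 - a p.2)
    calc ‖p.1 - a p.2‖⁻¹ * ‖F (WithLp.toLp 2 p)‖ ^ 2
        ≤ (hC (p.1 - a p.2) + 1) * ‖F (WithLp.toLp 2 p)‖ ^ 2 := by gcongr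
      _ = hC (p.1 - a p.2) * ‖F (WithLp.toLp 2 p)‖ ^ 2 + ‖F (WithLp.toLp 2 p)‖ ^ 2 := by ring
      _ ≤ hC (p.1 - a p.2) * ((C * (1 + ‖p.2‖) ^ (-((Module.finrank ℝ W + 1 : ℕ) : ℝ))) * D)
          + D * ‖F (WithLp.toLp 2 p)‖ := by gcongr
      _ = _ := by
        simp only [Pi.add_apply]
        ring

/-- Integrability of a weight of linear growth against a Schwartz density. -/
lemma weight_integrable (f : 𝓢(V, ℂ)) {g : V → ℝ} (hg : Continuous g) {A : ℝ}
    (hA : ∀ x, |g x| ≤ A * (1 + ‖x‖)) : Integrable (fun x => g x * ‖f x‖ ^ 2) := by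
  have hA0 : 0 ≤ A := by
    have := (abs_nonneg _).trans (hA 0)
    simpa using this
  obtain ⟨C, hC⟩ : ∃ C : ℝ, ∀ z, (1 + ‖z‖) ^ 1 * ‖f z‖ ≤ C := by
    refine ⟨2 ^ 1 * (Finset.Iic ((1, 0) : ℕ × ℕ)).sup
      (fun m => SchwartzMap.seminorm ℝ m.1 m.2) f, fun z => ?_⟩
    have := one_add_le_sup_seminorm_apply (𝕜 := ℝ) (m := (1, 0)) (k := 1) (n := 0)
      le_rfl le_rfl f z
    rw [norm_iteratedFDeriv_zero] at this
    exact this
  refine Integrable.mono' (f.integrable.norm.const_mul (A * C)) ?_ ?_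
  · apply Continuous.aestronglyMeasurable
    fun_prop
  · refine Filter.Eventually.of_forall fun x => ?_
    rw [norm_mul, Real.norm_eq_abs, Real.norm_of_nonneg (by positivity : 0 ≤ ‖f x‖ ^ 2)]
    have h1 := hA x
    have h2 := hC x
    rw [pow_one] at h2
    calc |g x| * ‖f x‖ ^ 2 ≤ (A * (1 + ‖x‖)) * ‖f x‖ ^ 2 := by gcongr
      _ = A * ((1 + ‖x‖) * ‖f x‖) * ‖f x‖ := by ring
      _ ≤ A * C * ‖f x‖ := by gcongr

/-- Kinetic weights: integrability of the partially transformed density. -/
lemma pF_weight_integrable (F : 𝓢(WithLp 2 (V × W), ℂ)) {w : V → ℝ} (hw : Continuous w)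
    {A : ℝ} (hA : ∀ x, |w x| ≤ A * (1 + ‖x‖)) (hw0 : ∀ x, 0 ≤ w x) :
    Integrable (fun p : V × W => w p.1 * ‖pF F p.1 p.2‖ ^ 2) ∧
    ∫ p : V × W, w p.1 * ‖pF F p.1 p.2‖ ^ 2 =
      ∫ p : V × W, w p.1 * ‖(𝓕 F) (WithLp.toLp 2 p)‖ ^ 2 := by
  have hA0 : 0 ≤ A := by
    have := (abs_nonneg _).trans (hA 0)
    simpa using this
  have hfull : Integrable (fun p : V × W => w p.1 * ‖(𝓕 F) (WithLp.toLp 2 p)‖ ^ 2) := by
    have h := weight_integrable (𝓕 F) (g := fun z : WithLp 2 (V × W) => w z.fst) (A := A)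
      (by fun_prop) (by
        intro z
        refine (hA z.fst).trans ?_
        have : ‖z.fst‖ ≤ ‖z‖ := by
          rw [WithLp.prod_norm_eq_of_L2]
          apply Real.le_sqrt_of_sq_le
          nlinarith [sq_nonneg ‖z.snd‖]
        gcongr)
    rw [integrable_withLp] at h
    exact h
  have hk : ∀ k : V, ∫ y : W, ‖w k * ‖pF F k y‖ ^ 2‖ =
      ∫ k' : W, w k * ‖(𝓕 F) (WithLp.toLp 2 (k, k'))‖ ^ 2 := by
    intro k
    have : ∀ y : W, ‖w k * ‖pF F k y‖ ^ 2‖ = w k * ‖pF F k y‖ ^ 2 := by
      intro y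
      rw [Real.norm_of_nonneg]
      exact mul_nonneg (hw0 k) (by positivity)
    simp_rw [this]
    rw [integral_const_mul, integral_norm_sq_pF, integral_const_mul]
  have hI : Integrable (fun p : V × W => w p.1 * ‖pF F p.1 p.2‖ ^ 2) := by
    rw [Measure.volume_eq_prod, integrable_prod_iff]
    · constructor
      · refine Filter.Eventually.of_forall fun k => ?_
        change Integrable (fun y : W => w k * ‖pF F k y‖ ^ 2)
        apply Integrable.const_mul
        have h1 : (fun y : W => ‖pF F k y‖ ^ 2) = fun y => 1 * ‖𝓕⁻ (sliceR (𝓕 F) k) y‖ ^ 2 := by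
          funext y
          rw [pF_eq_inv, one_mul]
        rw [h1]
        apply weight_integrable (𝓕⁻ (sliceR (𝓕 F) k)) (g := fun _ => 1) (A := 1)
        · fun_prop
        · intro x
          simp
      · simp_rw [hk]
        rw [Measure.volume_eq_prod] at hfull
        exact hfull.integral_prod_left
    · apply Continuous.aestronglyMeasurable
      have := pF_continuous F
      fun_prop
  refine ⟨hI, ?_⟩
  rw [Measure.volume_eq_prod] at hI hfull ⊢
  rw [integral_prod _ hI, integral_prod _ hfull]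
  congr 1
  funext k
  simp only
  rw [integral_const_mul, integral_norm_sq_pF, integral_const_mul]

end Abstract

end Pool.Agent.Helper67
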