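import Pool.Agent.Helper67.Pieces

set_option autoImplicit false
set_option linter.unusedSectionVars false
open MeasureTheory FourierTransform SchwartzMap
open scoped RealInnerProductSpace

namespace Pool.Agent.Helper67

/-- The quadratic form of the relativistic Coulomb Hamiltonian. -/
noncomputable def Qf {N K q : ℕ} (R : Fin K → Fin 3 → ℝ) (α z : ℝ)
    (ψ : (Fin N → Fin q) → 𝓢(Cfg (Fin N), ℂ)) : ℝ :=
  (∑ σ : Fin N → Fin q, ∫ k : Cfg (Fin N),
      (∑ i : Fin N, 2 * Real.pi * mm k i) * ‖𝓕 (fun y : Cfg (Fin N) => ψ σ y) k‖ ^ 2)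
    + α * (∑ σ : Fin N → Fin q, ∫ x : Cfg (Fin N),
      ((∑ i : Fin N, ∑ j : Fin N, if i < j then 1 / dd x i j else 0)
        - z * (∑ i : Fin N, ∑ l : Fin K, 1 / dp x i (R l))
        + z ^ 2 * (∑ l : Fin K, ∑ m : Fin K,
            if l < m then 1 / Real.sqrt (∑ c : Fin 3, (R l c - R m c) ^ 2) else 0))
      * ‖ψ σ x‖ ^ 2)

/-- Antisymmetry under simultaneous exchange of position and spin. -/
def Anti {N q : ℕ} (ψ : (Fin N → Fin q) → 𝓢(Cfg (Fin N), ℂ)) : Prop :=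
  ∀ (π' : Equiv.Perm (Fin N)) (σ : Fin N → Fin q) (x : Cfg (Fin N)),
    ψ (σ ∘ π') (WithLp.toLp 2 (fun p : Fin N × Fin 3 => WithLp.ofLp x (π' p.1, p.2)))
      = ((Equiv.Perm.sign π' : ℤ) : ℂ) * ψ σ x

section totals

variable {N q : ℕ}

noncomputable def T (ψ : (Fin N → Fin q) → 𝓢(Cfg (Fin N), ℂ)) (i : Fin N) : ℝ :=
  ∑ σ, kin (ψ σ) i

noncomputable def Vr (ψ : (Fin N → Fin q) → 𝓢(Cfg (Fin N), ℂ)) (i j : Fin N) : ℝ :=
  ∑ σ, rep (ψ σ) i j

noncomputable def At (ψ : (Fin N → Fin q) → 𝓢(Cfg (Fin N), ℂ)) (i : Fin N) (P : Fin 3 → ℝ) : ℝ :=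
  ∑ σ, att (ψ σ) i P

noncomputable def Nn (ψ : (Fin N → Fin q) → 𝓢(Cfg (Fin N), ℂ)) : ℝ :=
  ∑ σ, nrm (ψ σ)

/-- Nuclear repulsion. -/
noncomputable def Wn {K : ℕ} (R : Fin K → Fin 3 → ℝ) : ℝ :=
  ∑ l : Fin K, ∑ m : Fin K,
    if l < m then 1 / Real.sqrt (∑ c : Fin 3, (R l c - R m c) ^ 2) else 0

lemma Wn_nonneg {K : ℕ} (R : Fin K → Fin 3 → ℝ) : 0 ≤ Wn R := by
  unfold Wn
  refine Finset.sum_nonneg fun l _ => Finset.sum_nonneg fun m _ => ?_
  split_ifs
  · positivity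
  · exact le_rfl

lemma Nn_nonneg (ψ : (Fin N → Fin q) → 𝓢(Cfg (Fin N), ℂ)) : 0 ≤ Nn ψ := by
  unfold Nn
  refine Finset.sum_nonneg fun σ _ => ?_
  exact integral_nonneg fun x => by positivity

end totals

lemma rep_int' {N : ℕ} (f : 𝓢(Cfg (Fin N), ℂ)) (i j : Fin N) :
    Integrable (fun x : Cfg (Fin N) => (if i < j then 1 / dd x i j else 0) * ‖f x‖ ^ 2) := by
  split_ifs with h
  · exact rep_integrable f i j h.ne
  · simp

lemma Qf_single {N K : ℕ} (R : Fin K → Fin 3 → ℝ) (α z : ℝ) (f : 𝓢(Cfg (Fin N), ℂ)) :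
    (∫ k : Cfg (Fin N),
      (∑ i : Fin N, 2 * Real.pi * mm k i) * ‖𝓕 (fun y : Cfg (Fin N) => f y) k‖ ^ 2)
    + α * (∫ x : Cfg (Fin N),
      ((∑ i : Fin N, ∑ j : Fin N, if i < j then 1 / dd x i j else 0)
        - z * (∑ i : Fin N, ∑ l : Fin K, 1 / dp x i (R l))
        + z ^ 2 * (∑ l : Fin K, ∑ m : Fin K,
            if l < m then 1 / Real.sqrt (∑ c : Fin 3, (R l c - R m c) ^ 2) else 0))
      * ‖f x‖ ^ 2)
    = (∑ i, kin f i) + α * ((∑ i, ∑ j, if i < j then rep f i j else 0)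
        - z * (∑ i, ∑ l, att f i (R l)) + z ^ 2 * Wn R * nrm f) := by
  congr 1
  · unfold kin
    rw [← integral_finsetSum]
    · congr 1
      funext k
      rw [Finset.sum_mul]
      rfl
    · intro i _
      exact kin_integrable f i
  · congr 1
    have h1 : ∀ x : Cfg (Fin N),
      ((∑ i : Fin N, ∑ j : Fin N, if i < j then 1 / dd x i j else 0)
        - z * (∑ i : Fin N, ∑ l : Fin K, 1 / dp x i (R l))
        + z ^ 2 * (∑ l : Fin K, ∑ m : Fin K,
            if l < m then 1 / Real.sqrt (∑ c : Fin 3, (R l c - R m c) ^ 2) else 0))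
      * ‖f x‖ ^ 2 = ((∑ i : Fin N, ∑ j : Fin N, (if i < j then 1 / dd x i j else 0) * ‖f x‖ ^ 2)
        - z * (∑ i : Fin N, ∑ l : Fin K, 1 / dp x i (R l) * ‖f x‖ ^ 2))
        + z ^ 2 * Wn R * ‖f x‖ ^ 2 := by
      intro x
      rw [add_mul, sub_mul, mul_assoc z]
      simp_rw [Finset.sum_mul]
      rfl
    simp_rw [h1]
    have i1 : Integrable (fun x : Cfg (Fin N) =>
        ∑ i : Fin N, ∑ j : Fin N, (if i < j then 1 / dd x i j else 0) * ‖f x‖ ^ 2) :=
      integrable_finsetSum _ fun i _ => integrable_finsetSum _ fun j _ => rep_int' f i j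
    have i2 : Integrable (fun x : Cfg (Fin N) =>
        ∑ i : Fin N, ∑ l : Fin K, 1 / dp x i (R l) * ‖f x‖ ^ 2) :=
      integrable_finsetSum _ fun i _ => integrable_finsetSum _ fun l _ => att_integrable f i (R l)
    have i3 : Integrable (fun x : Cfg (Fin N) =>
        (∑ i : Fin N, ∑ j : Fin N, (if i < j then 1 / dd x i j else 0) * ‖f x‖ ^ 2) -
        z * ∑ i : Fin N, ∑ l : Fin K, 1 / dp x i (R l) * ‖f x‖ ^ 2) :=
      i1.sub (i2.const_mul z)
    have i4 : Integrable (fun x : Cfg (Fin N) => z ^ 2 * Wn R * ‖f x‖ ^ 2) :=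
      (nrm_integrable f).const_mul _
    rw [integral_add i3 i4]
    rw [integral_sub i1 (i2.const_mul z)]
    rw [integral_const_mul, integral_const_mul]
    rw [integral_finsetSum _ fun i _ => integrable_finsetSum _ fun j _ => rep_int' f i j]
    rw [integral_finsetSum _ fun i _ => integrable_finsetSum _ fun l _ => att_integrable f i (R l)]
    congr 1
    congr 1
    · refine Finset.sum_congr rfl fun i _ => ?_
      rw [integral_finsetSum _ fun j _ => rep_int' f i j]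
      refine Finset.sum_congr rfl fun j _ => ?_
      split_ifs
      · rfl
      · simp
    · congr 1
      refine Finset.sum_congr rfl fun i _ => ?_
      rw [integral_finsetSum _ fun l _ => att_integrable f i (R l)]
      rfl

lemma Qf_eq_sum {N K q : ℕ} (R : Fin K → Fin 3 → ℝ) (α z : ℝ)
    (ψ : (Fin N → Fin q) → 𝓢(Cfg (Fin N), ℂ)) :
    Qf R α z ψ = ∑ σ, ((∑ i, kin (ψ σ) i) + α * ((∑ i, ∑ j, if i < j then rep (ψ σ) i j else 0)
        - z * (∑ i, ∑ l, att (ψ σ) i (R l)) + z ^ 2 * Wn R * nrm (ψ σ))) := by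
  unfold Qf
  rw [Finset.mul_sum, ← Finset.sum_add_distrib]
  refine Finset.sum_congr rfl fun σ _ => ?_
  exact Qf_single R α z (ψ σ)

lemma Qf_eq {N K q : ℕ} (R : Fin K → Fin 3 → ℝ) (α z : ℝ)
    (ψ : (Fin N → Fin q) → 𝓢(Cfg (Fin N), ℂ)) :
    Qf R α z ψ = (∑ i, T ψ i) + α * ((∑ i, ∑ j, if i < j then Vr ψ i j else 0)
        - z * (∑ i, ∑ l, At ψ i (R l)) + z ^ 2 * Wn R * Nn ψ) := by
  rw [Qf_eq_sum, Finset.sum_add_distrib, ← Finset.mul_sum, Finset.sum_add_distrib,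
    Finset.sum_sub_distrib, ← Finset.mul_sum, ← Finset.mul_sum]
  unfold T Vr At Nn
  congr 1
  · rw [Finset.sum_comm]
  · congr 1
    congr 1
    congr 1
    · rw [Finset.sum_comm]
      refine Finset.sum_congr rfl fun i _ => ?_
      rw [Finset.sum_comm]
      refine Finset.sum_congr rfl fun j _ => ?_
      split_ifs
      · rfl
      · simp
    · congr 1
      rw [Finset.sum_comm]
      refine Finset.sum_congr rfl fun i _ => ?_
      rw [Finset.sum_comm]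

end Pool.Agent.Helper67
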