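import Pool.Agent.Helper67.Fiber

set_option autoImplicit false
set_option linter.unusedSectionVars false
open MeasureTheory FourierTransform SchwartzMap
open scoped RealInnerProductSpace

namespace Pool.Agent.Helper67

section fiber

variable {N M q : ℕ} {b : Type} [Fintype b] [DecidableEq b]

/-- Glue spin configurations. -/
def gl (e : Fin M ⊕ b ≃ Fin N) (s : Fin M → Fin q) (t : b → Fin q) : Fin N → Fin q :=
  fun i => Sum.elim s t (e.symm i)

lemma gl_inl (e : Fin M ⊕ b ≃ Fin N) (s : Fin M → Fin q) (t : b → Fin q) (i : Fin M) :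
    gl e s t (e (Sum.inl i)) = s i := by
  simp [gl]

lemma gl_inr (e : Fin M ⊕ b ≃ Fin N) (s : Fin M → Fin q) (t : b → Fin q) (j : b) :
    gl e s t (e (Sum.inr j)) = t j := by
  simp [gl]

/-- Glueing as an equivalence. -/
def glE (e : Fin M ⊕ b ≃ Fin N) : (b → Fin q) × (Fin M → Fin q) ≃ (Fin N → Fin q) where
  toFun p := gl e p.2 p.1
  invFun s := (fun j => s (e (Sum.inr j)), fun i => s (e (Sum.inl i)))
  left_inv p := by
    ext <;> simp [gl_inl, gl_inr]
  right_inv s := by
    funext i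
    obtain ⟨w, rfl⟩ := e.surjective i
    cases w with
    | inl i => simp [gl_inl]
    | inr j => simp [gl_inr]

lemma sum_gl (e : Fin M ⊕ b ≃ Fin N) (g : (Fin N → Fin q) → ℝ) :
    ∑ t : b → Fin q, ∑ s : Fin M → Fin q, g (gl e s t) = ∑ σ, g σ := by
  rw [← Fintype.sum_prod_type' (f := fun t s => g (gl e s t))]
  exact Fintype.sum_equiv (glE e) _ _ (fun p => rfl)

/-- The fibre of a many particle function. -/
noncomputable def fib (e : Fin M ⊕ b ≃ Fin N) (ψ : (Fin N → Fin q) → 𝓢(Cfg (Fin N), ℂ))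
    (t : b → Fin q) (y : Cfg b) : (Fin M → Fin q) → 𝓢(Cfg (Fin M), ℂ) :=
  fun s => slc e (ψ (gl e s t)) y

lemma fib_anti (e : Fin M ⊕ b ≃ Fin N) (ψ : (Fin N → Fin q) → 𝓢(Cfg (Fin N), ℂ))
    (hψ : Anti ψ) (t : b → Fin q) (y : Cfg b) : Anti (fib e ψ t y) := by
  intro π' s x
  let π : Equiv.Perm (Fin N) := e.permCongr (Equiv.Perm.sumCongr π' 1)
  have hπl : ∀ i, π (e (Sum.inl i)) = e (Sum.inl (π' i)) := by
    intro i
    simp [π]
  have hπr : ∀ j, π (e (Sum.inr j)) = e (Sum.inr j) := by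
    intro j
    simp [π]
  have hsign : Equiv.Perm.sign π = Equiv.Perm.sign π' := by
    simp only [π]
    rw [Equiv.Perm.sign_permCongr, Equiv.Perm.sign_sumCongr]
    simp
  have h1 : gl e (s ∘ π') t = (gl e s t) ∘ π := by
    funext i
    obtain ⟨w, rfl⟩ := e.surjective i
    cases w with
    | inl i => simp [gl_inl, hπl]
    | inr j => simp [gl_inr, hπr]
  have h2 : J e (WithLp.toLp 2
      (WithLp.toLp 2 (fun p : Fin M × Fin 3 => WithLp.ofLp x (π' p.1, p.2)), y)) =
      WithLp.toLp 2 (fun p : Fin N × Fin 3 =>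
        WithLp.ofLp (J e (WithLp.toLp 2 (x, y))) (π p.1, p.2)) := by
    ext p
    obtain ⟨i, c⟩ := p
    obtain ⟨w, rfl⟩ := e.surjective i
    cases w with
    | inl i => simp only [J_inl, hπl]
    | inr j => simp only [J_inr, hπr]
  have h3 := hψ π (gl e s t) (J e (WithLp.toLp 2 (x, y)))
  simp only [fib, slc_apply]
  rw [h1, h2, h3, hsign]

/-- The fibre inequality: stability for `M` particles controls the energy of a subset of the
particles of an `N` particle state. -/
lemma fiber_ineq {K : ℕ} (R : Fin K → Fin 3 → ℝ) (α z : ℝ)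
    (hst : ∀ φ : (Fin M → Fin q) → 𝓢(Cfg (Fin M), ℂ), Anti φ → 0 ≤ Qf R α z φ)
    (e : Fin M ⊕ b ≃ Fin N) (ψ : (Fin N → Fin q) → 𝓢(Cfg (Fin N), ℂ)) (hψ : Anti ψ) :
    0 ≤ (∑ i : Fin M, T ψ (e (Sum.inl i))) +
      α * ((∑ i : Fin M, ∑ j : Fin M,
          if i < j then Vr ψ (e (Sum.inl i)) (e (Sum.inl j)) else 0)
        - z * (∑ i : Fin M, ∑ l, At ψ (e (Sum.inl i)) (R l)) + z ^ 2 * Wn R * Nn ψ) := by
  have h0 : ∀ t y, 0 ≤ Qf R α z (fib e ψ t y) := fun t y => hst _ (fib_anti e ψ hψ t y)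
  -- integrability and value of each piece
  have hI : ∀ t s, Integrable (fun y : Cfg b =>
      ((∑ i, kin (fib e ψ t y s) i) + α * ((∑ i, ∑ j, if i < j then rep (fib e ψ t y s) i j else 0)
        - z * (∑ i, ∑ l, att (fib e ψ t y s) i (R l)) + z ^ 2 * Wn R * nrm (fib e ψ t y s)))) ∧
      ∫ y : Cfg b, ((∑ i, kin (fib e ψ t y s) i) +
        α * ((∑ i, ∑ j, if i < j then rep (fib e ψ t y s) i j else 0)
        - z * (∑ i, ∑ l, att (fib e ψ t y s) i (R l)) + z ^ 2 * Wn R * nrm (fib e ψ t y s))) =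
      (∑ i : Fin M, kin (ψ (gl e s t)) (e (Sum.inl i))) +
      α * ((∑ i : Fin M, ∑ j : Fin M,
          if i < j then rep (ψ (gl e s t)) (e (Sum.inl i)) (e (Sum.inl j)) else 0)
        - z * (∑ i : Fin M, ∑ l, att (ψ (gl e s t)) (e (Sum.inl i)) (R l))
        + z ^ 2 * Wn R * nrm (ψ (gl e s t))) := by
    intro t s
    have k1 : ∀ i : Fin M, Integrable (fun y : Cfg b => kin (fib e ψ t y s) i) ∧
        kin (ψ (gl e s t)) (e (Sum.inl i)) = ∫ y : Cfg b, kin (fib e ψ t y s) i :=
      fun i => kin_slc e (ψ (gl e s t)) i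
    have k2 : ∀ (i : Fin M) (l : Fin K),
        Integrable (fun y : Cfg b => att (fib e ψ t y s) i (R l)) ∧
        att (ψ (gl e s t)) (e (Sum.inl i)) (R l) = ∫ y : Cfg b, att (fib e ψ t y s) i (R l) :=
      fun i l => att_slc e (ψ (gl e s t)) i (R l)
    have k3 : Integrable (fun y : Cfg b => nrm (fib e ψ t y s)) ∧
        nrm (ψ (gl e s t)) = ∫ y : Cfg b, nrm (fib e ψ t y s) :=
      nrm_slc e (ψ (gl e s t))
    have k4 : ∀ i j : Fin M,
        Integrable (fun y : Cfg b => if i < j then rep (fib e ψ t y s) i j else 0) ∧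
        (if i < j then rep (ψ (gl e s t)) (e (Sum.inl i)) (e (Sum.inl j)) else 0) =
          ∫ y : Cfg b, if i < j then rep (fib e ψ t y s) i j else 0 := by
      intro i j
      split_ifs with h
      · exact rep_slc e (ψ (gl e s t)) i j h.ne
      · simp
    have i1 : Integrable (fun y : Cfg b => ∑ i, kin (fib e ψ t y s) i) :=
      integrable_finsetSum _ fun i _ => (k1 i).1
    have i2 : Integrable (fun y : Cfg b =>
        ∑ i, ∑ j, if i < j then rep (fib e ψ t y s) i j else 0) :=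
      integrable_finsetSum _ fun i _ => integrable_finsetSum _ fun j _ => (k4 i j).1
    have i3 : Integrable (fun y : Cfg b => ∑ i, ∑ l, att (fib e ψ t y s) i (R l)) :=
      integrable_finsetSum _ fun i _ => integrable_finsetSum _ fun l _ => (k2 i l).1
    have i4 : Integrable (fun y : Cfg b => nrm (fib e ψ t y s)) := k3.1
    have i5 : Integrable (fun y : Cfg b =>
        (∑ i, ∑ j, if i < j then rep (fib e ψ t y s) i j else 0)
        - z * (∑ i, ∑ l, att (fib e ψ t y s) i (R l))) := i2.sub (i3.const_mul z)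
    have i6 : Integrable (fun y : Cfg b => z ^ 2 * Wn R * nrm (fib e ψ t y s)) :=
      i4.const_mul _
    have i7 : Integrable (fun y : Cfg b =>
        α * ((∑ i, ∑ j, if i < j then rep (fib e ψ t y s) i j else 0)
        - z * (∑ i, ∑ l, att (fib e ψ t y s) i (R l)) + z ^ 2 * Wn R * nrm (fib e ψ t y s))) :=
      (i5.add i6).const_mul α
    refine ⟨i1.add i7, ?_⟩
    rw [integral_add i1 i7, integral_const_mul, integral_add i5 i6,
      integral_sub i2 (i3.const_mul z), integral_const_mul, integral_const_mul]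
    rw [integral_finsetSum _ fun i _ => (k1 i).1]
    rw [integral_finsetSum _ fun i _ => integrable_finsetSum _ fun j _ => (k4 i j).1]
    rw [integral_finsetSum _ fun i _ => integrable_finsetSum _ fun l _ => (k2 i l).1]
    congr 1
    · exact Finset.sum_congr rfl fun i _ => (k1 i).2.symm
    · congr 1
      congr 1
      · congr 1
        · refine Finset.sum_congr rfl fun i _ => ?_
          rw [integral_finsetSum _ fun j _ => (k4 i j).1]
          exact Finset.sum_congr rfl fun j _ => (k4 i j).2.symm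
        · congr 1
          refine Finset.sum_congr rfl fun i _ => ?_
          rw [integral_finsetSum _ fun l _ => (k2 i l).1]
          exact Finset.sum_congr rfl fun l _ => (k2 i l).2.symm
      · rw [k3.2]
  have h1 : 0 ≤ ∑ t : b → Fin q, ∫ y : Cfg b, Qf R α z (fib e ψ t y) :=
    Finset.sum_nonneg fun t _ => integral_nonneg fun y => h0 t y
  have h2 : ∀ t : b → Fin q, ∫ y : Cfg b, Qf R α z (fib e ψ t y) =
      ∑ s : Fin M → Fin q, ((∑ i : Fin M, kin (ψ (gl e s t)) (e (Sum.inl i))) +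
      α * ((∑ i : Fin M, ∑ j : Fin M,
          if i < j then rep (ψ (gl e s t)) (e (Sum.inl i)) (e (Sum.inl j)) else 0)
        - z * (∑ i : Fin M, ∑ l, att (ψ (gl e s t)) (e (Sum.inl i)) (R l))
        + z ^ 2 * Wn R * nrm (ψ (gl e s t)))) := by
    intro t
    simp_rw [Qf_eq_sum]
    rw [integral_finsetSum _ fun s _ => (hI t s).1]
    exact Finset.sum_congr rfl fun s _ => (hI t s).2
  simp_rw [h2] at h1
  rw [sum_gl e (fun σ => ((∑ i : Fin M, kin (ψ σ) (e (Sum.inl i))) +
      α * ((∑ i : Fin M, ∑ j : Fin M,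
          if i < j then rep (ψ σ) (e (Sum.inl i)) (e (Sum.inl j)) else 0)
        - z * (∑ i : Fin M, ∑ l, att (ψ σ) (e (Sum.inl i)) (R l))
        + z ^ 2 * Wn R * nrm (ψ σ))))] at h1
  refine h1.trans (le_of_eq ?_)
  rw [Finset.sum_add_distrib, ← Finset.mul_sum, Finset.sum_add_distrib,
    Finset.sum_sub_distrib, ← Finset.mul_sum, ← Finset.mul_sum]
  unfold T Vr At Nn
  congr 1
  · rw [Finset.sum_comm]
  · congr 1
    congr 1
    congr 1
    · rw [Finset.sum_comm]
      refine Finset.sum_congr rfl fun i _ => ?_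
      rw [Finset.sum_comm]
      refine Finset.sum_congr rfl fun j _ => ?_
      split_ifs
      · rfl
      · simp
    · congr 1
      rw [Finset.sum_comm]
      refine Finset.sum_congr rfl fun i _ => ?_
      rw [Finset.sum_comm]

end fiber

end Pool.Agent.Helper67
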