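import Mathlib

set_option autoImplicit false
set_option linter.unusedSectionVars false
open MeasureTheory FourierTransform SchwartzMap
open scoped RealInnerProductSpace

namespace Pool.Agent.Helper67

section Abstract

variable {V W : Type*} [NormedAddCommGroup V] [InnerProductSpace ℝ V] [FiniteDimensional ℝ V]
  [MeasurableSpace V] [BorelSpace V]
  [NormedAddCommGroup W] [InnerProductSpace ℝ W] [FiniteDimensional ℝ W]
  [MeasurableSpace W] [BorelSpace W]

/-- The affine embedding `x ↦ (x, y)`. -/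
noncomputable def inclL (y : W) : V → WithLp 2 (V × W) := fun x => WithLp.toLp 2 (x, y)

/-- The affine embedding `y ↦ (x, y)`. -/
noncomputable def inclR (x : V) : W → WithLp 2 (V × W) := fun y => WithLp.toLp 2 (x, y)

lemma inclL_temperate (y : W) : (inclL (V := V) y).HasTemperateGrowth := by
  have h1 : (inclL (V := V) y) = fun x =>
      ((WithLp.prodContinuousLinearEquiv 2 ℝ V W).symm.toContinuousLinearMap.comp
        (ContinuousLinearMap.inl ℝ V W)) x + WithLp.toLp 2 ((0 : V), y) := by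
    funext x
    simp [inclL]
    rw [← WithLp.toLp_add]
    simp
  rw [h1]
  exact (ContinuousLinearMap.hasTemperateGrowth _).add (Function.HasTemperateGrowth.const _)

lemma inclR_temperate (x : V) : (inclR (W := W) x).HasTemperateGrowth := by
  have h1 : (inclR (W := W) x) = fun y =>
      ((WithLp.prodContinuousLinearEquiv 2 ℝ V W).symm.toContinuousLinearMap.comp
        (ContinuousLinearMap.inr ℝ V W)) y + WithLp.toLp 2 (x, (0 : W)) := by
    funext y
    simp [inclR]
    rw [← WithLp.toLp_add]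
    simp
  rw [h1]
  exact (ContinuousLinearMap.hasTemperateGrowth _).add (Function.HasTemperateGrowth.const _)

lemma inclL_anti (y : W) : AntilipschitzWith 1 (inclL (V := V) y) := by
  apply AntilipschitzWith.of_le_mul_dist
  intro a b
  simp only [NNReal.coe_one, one_mul, inclL]
  rw [dist_eq_norm, dist_eq_norm, ← WithLp.toLp_sub]
  rw [WithLp.prod_norm_eq_of_L2]
  simp

lemma inclR_anti (x : V) : AntilipschitzWith 1 (inclR (W := W) x) := by
  apply AntilipschitzWith.of_le_mul_dist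
  intro a b
  simp only [NNReal.coe_one, one_mul, inclR]
  rw [dist_eq_norm, dist_eq_norm, ← WithLp.toLp_sub]
  rw [WithLp.prod_norm_eq_of_L2]
  simp

/-- The slice `x ↦ F (x, y)` as a Schwartz function. -/
noncomputable def sliceL (F : 𝓢(WithLp 2 (V × W), ℂ)) (y : W) : 𝓢(V, ℂ) :=
  compCLMOfAntilipschitz ℂ (inclL_temperate (V := V) y) (inclL_anti y) F

/-- The slice `y ↦ F (x, y)` as a Schwartz function. -/
noncomputable def sliceR (F : 𝓢(WithLp 2 (V × W), ℂ)) (x : V) : 𝓢(W, ℂ) :=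
  compCLMOfAntilipschitz ℂ (inclR_temperate (W := W) x) (inclR_anti x) F

@[simp] lemma sliceL_apply (F : 𝓢(WithLp 2 (V × W), ℂ)) (y : W) (x : V) :
    sliceL F y x = F (WithLp.toLp 2 (x, y)) := rfl

@[simp] lemma sliceR_apply (F : 𝓢(WithLp 2 (V × W), ℂ)) (y : W) (x : V) :
    sliceR F x y = F (WithLp.toLp 2 (x, y)) := rfl

/-- Joint polynomial decay of a Schwartz function on a product. -/
lemma schwartz_decay (F : 𝓢(WithLp 2 (V × W), ℂ)) (n m : ℕ) :
    ∃ C : ℝ, 0 ≤ C ∧ ∀ (x : V) (y : W),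
      ‖F (WithLp.toLp 2 (x, y))‖ ≤
        C * ((1 + ‖x‖) ^ (-(n : ℝ)) * (1 + ‖y‖) ^ (-(m : ℝ))) := by
  obtain ⟨C, hC⟩ : ∃ C : ℝ, ∀ z, (1 + ‖z‖) ^ (n + m) * ‖F z‖ ≤ C := by
    refine ⟨2 ^ (n + m) * (Finset.Iic ((n + m, 0) : ℕ × ℕ)).sup
      (fun m => SchwartzMap.seminorm ℝ m.1 m.2) F, fun z => ?_⟩
    have := one_add_le_sup_seminorm_apply (𝕜 := ℝ) (m := (n + m, 0)) (k := n + m) (n := 0)
      le_rfl le_rfl F z
    rw [norm_iteratedFDeriv_zero] at this
    exact this
  have hC0 : 0 ≤ C := le_trans (by positivity) (hC 0)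
  refine ⟨C, hC0, fun x y => ?_⟩
  have hx : ‖x‖ ≤ ‖WithLp.toLp 2 (x, y)‖ := by
    rw [WithLp.prod_norm_eq_of_L2]
    apply Real.le_sqrt_of_sq_le
    change ‖x‖ ^ 2 ≤ ‖x‖ ^ 2 + ‖y‖ ^ 2
    nlinarith [sq_nonneg ‖y‖]
  have hy : ‖y‖ ≤ ‖WithLp.toLp 2 (x, y)‖ := by
    rw [WithLp.prod_norm_eq_of_L2]
    apply Real.le_sqrt_of_sq_le
    change ‖y‖ ^ 2 ≤ ‖x‖ ^ 2 + ‖y‖ ^ 2
    nlinarith [sq_nonneg ‖x‖]
  rw [Real.rpow_neg (by positivity), Real.rpow_neg (by positivity), Real.rpow_natCast,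
    Real.rpow_natCast, ← mul_inv, ← div_eq_mul_inv, le_div_iff₀ (by positivity)]
  calc ‖F (WithLp.toLp 2 (x, y))‖ * ((1 + ‖x‖) ^ n * (1 + ‖y‖) ^ m)
      ≤ ‖F (WithLp.toLp 2 (x, y))‖ *
        ((1 + ‖WithLp.toLp 2 (x, y)‖) ^ n * (1 + ‖WithLp.toLp 2 (x, y)‖) ^ m) := by gcongr
    _ = (1 + ‖WithLp.toLp 2 (x, y)‖) ^ (n + m) * ‖F (WithLp.toLp 2 (x, y))‖ := by ring
    _ ≤ C := hC _

/-- Integrals over the `L2` product as integrals over the ordinary product. -/
lemma integral_withLp {G : Type*} [NormedAddCommGroup G] [NormedSpace ℝ G]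
    (f : WithLp 2 (V × W) → G) :
    ∫ z, f z = ∫ p : V × W, f (WithLp.toLp 2 p) := by
  rw [← (WithLp.volume_preserving_symm_measurableEquiv_toLp_prod V W).symm.integral_comp']
  rfl

lemma integrable_withLp {G : Type*} [NormedAddCommGroup G]
    (f : WithLp 2 (V × W) → G) :
    Integrable f ↔ Integrable (fun p : V × W => f (WithLp.toLp 2 p)) := by
  rw [← (WithLp.volume_preserving_symm_measurableEquiv_toLp_prod V W).symm.integrable_comp_emb
    (MeasurableEquiv.measurableEmbedding _)]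
  rfl

lemma schwartz_integrable_prod (F : 𝓢(WithLp 2 (V × W), ℂ)) :
    Integrable (fun p : V × W => F (WithLp.toLp 2 p)) := by
  rw [← integrable_withLp (fun z => F z)]
  exact F.integrable

/-- Partial Fourier transform in the first variable. -/
noncomputable def pF (F : 𝓢(WithLp 2 (V × W), ℂ)) (k : V) (y : W) : ℂ :=
  𝓕 (fun x : V => F (WithLp.toLp 2 (x, y))) k

lemma pF_eq (F : 𝓢(WithLp 2 (V × W), ℂ)) (k : V) (y : W) :
    pF F k y = ∫ x : V, Real.fourierChar (-⟪x, k⟫) • F (WithLp.toLp 2 (x, y)) := by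
  rw [pF, Real.fourier_eq]

lemma pF_continuous (F : 𝓢(WithLp 2 (V × W), ℂ)) :
    Continuous (fun p : V × W => pF F p.1 p.2) := by
  obtain ⟨C, hC0, hC⟩ := schwartz_decay F (Module.finrank ℝ V + 1) 0
  simp_rw [pF_eq]
  refine continuous_of_dominated
    (bound := fun x : V => C * (1 + ‖x‖) ^ (-((Module.finrank ℝ V + 1 : ℕ) : ℝ))) ?_ ?_ ?_ ?_
  · intro p
    apply Continuous.aestronglyMeasurable
    fun_prop
  · intro p
    refine Filter.Eventually.of_forall fun x => ?_
    rw [Circle.norm_smul]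
    simpa using hC x p.2
  · apply Integrable.const_mul
    apply integrable_one_add_norm
    push_cast
    linarith
  · refine Filter.Eventually.of_forall fun x => ?_
    fun_prop

lemma pF_decay (F : 𝓢(WithLp 2 (V × W), ℂ)) (m : ℕ) :
    ∃ C : ℝ, 0 ≤ C ∧ ∀ k y, ‖pF F k y‖ ≤ C * (1 + ‖y‖) ^ (-(m : ℝ)) := by
  obtain ⟨C, hC0, hC⟩ := schwartz_decay F (Module.finrank ℝ V + 1) m
  have hint : Integrable (fun x : V => (1 + ‖x‖) ^ (-((Module.finrank ℝ V + 1 : ℕ) : ℝ))) := by
    apply integrable_one_add_norm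
    push_cast
    linarith
  refine ⟨C * ∫ x : V, (1 + ‖x‖) ^ (-((Module.finrank ℝ V + 1 : ℕ) : ℝ)), ?_, fun k y => ?_⟩
  · apply mul_nonneg hC0
    apply integral_nonneg
    intro x
    positivity
  · rw [pF_eq]
    refine (norm_integral_le_integral_norm _).trans ?_
    have h1 : ∀ x : V, ‖Real.fourierChar (-⟪x, k⟫) • F (WithLp.toLp 2 (x, y))‖ ≤
        (C * (1 + ‖y‖) ^ (-(m : ℝ))) *
          (1 + ‖x‖) ^ (-((Module.finrank ℝ V + 1 : ℕ) : ℝ)) := by
      intro x
      rw [Circle.norm_smul]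
      refine (hC x y).trans (le_of_eq ?_)
      ring
    refine (integral_mono_of_nonneg (Filter.Eventually.of_forall fun x => norm_nonneg _)
      (hint.const_mul _) (Filter.Eventually.of_forall h1)).trans (le_of_eq ?_)
    rw [integral_const_mul]
    ring

lemma pF_integrable (F : 𝓢(WithLp 2 (V × W), ℂ)) (k : V) :
    Integrable (fun y : W => pF F k y) := by
  obtain ⟨C, hC0, hC⟩ := pF_decay F (Module.finrank ℝ W + 1)
  refine Integrable.mono' (g := fun y : W => C * (1 + ‖y‖) ^ (-((Module.finrank ℝ W + 1 : ℕ) : ℝ)))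
    ?_ ?_ (Filter.Eventually.of_forall fun y => hC k y)
  · apply Integrable.const_mul
    apply integrable_one_add_norm
    push_cast
    linarith
  · apply Continuous.aestronglyMeasurable
    have := (pF_continuous F).comp (Continuous.prodMk_right k)
    exact this

/-- Fubini for the Fourier transform. -/
lemma fourier_pF (F : 𝓢(WithLp 2 (V × W), ℂ)) (k : V) (k' : W) :
    𝓕 (fun y : W => pF F k y) k' = 𝓕 (fun z => F z) (WithLp.toLp 2 (k, k')) := by
  rw [Real.fourier_eq, Real.fourier_eq, integral_withLp, Measure.volume_eq_prod,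
    integral_prod_symm]
  · congr 1
    funext y
    rw [pF_eq, Circle.smul_def, ← integral_smul]
    congr 1
    funext x
    rw [← Circle.smul_def, smul_smul, ← AddChar.map_add_eq_mul]
    congr 2
    rw [WithLp.prod_inner_apply]
    change -⟪y, k'⟫ + -⟪x, k⟫ = -(⟪x, k⟫ + ⟪y, k'⟫)
    ring
  · have h := (schwartz_integrable_prod F)
    refine h.mono ?_ ?_
    · apply Continuous.aestronglyMeasurable
      fun_prop
    · refine Filter.Eventually.of_forall fun p => ?_
      rw [Circle.norm_smul]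

/-- The partial Fourier transform is the inverse Fourier transform, in the other variable, of the
full transform. -/
lemma pF_eq_inv (F : 𝓢(WithLp 2 (V × W), ℂ)) (k : V) (y : W) :
    pF F k y = 𝓕⁻ (sliceR (𝓕 F) k) y := by
  have h1 : 𝓕 (fun y : W => pF F k y) = fun k' => sliceR (𝓕 F) k k' := by
    funext k'
    rw [fourier_pF]
    rfl
  have hc : Continuous (fun y : W => pF F k y) :=
    (pF_continuous F).comp (Continuous.prodMk_right k)
  have h2 := Continuous.fourierInv_fourier_eq hc (pF_integrable F k)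
    (by rw [h1]; exact (sliceR (𝓕 F) k).integrable)
  have h3 := congrFun h2 y
  rw [← h3, h1, fourierInv_coe]

lemma integral_norm_sq_pF (F : 𝓢(WithLp 2 (V × W), ℂ)) (k : V) :
    ∫ y : W, ‖pF F k y‖ ^ 2 = ∫ k' : W, ‖(𝓕 F) (WithLp.toLp 2 (k, k'))‖ ^ 2 := by
  have h := integral_norm_sq_fourier (𝓕⁻ (sliceR (𝓕 F) k))
  rw [fourier_fourierInv_eq] at h
  have h2 : (fun y : W => ‖pF F k y‖ ^ 2) = fun y => ‖𝓕⁻ (sliceR (𝓕 F) k) y‖ ^ 2 := by
    funext y
    rw [pF_eq_inv]
  rw [h2, ← h]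
  rfl

end Abstract

end Pool.Agent.Helper67
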