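import Pool.Agent.Helper67.Coulomb

set_option autoImplicit false
set_option linter.unusedSectionVars false
open MeasureTheory FourierTransform SchwartzMap
open scoped RealInnerProductSpace

namespace Pool.Agent.Helper67

/-- Configuration space of particles labelled by `n` in three dimensional space. -/
abbrev Cfg (n : Type*) := EuclideanSpace ℝ (n × Fin 3)

section

variable {a b n : Type*} [Fintype a] [Fintype b] [Fintype n]

/-- Index equivalence. -/
def idxE (e : a ⊕ b ≃ n) : (a × Fin 3) ⊕ (b × Fin 3) ≃ n × Fin 3 :=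
  (Equiv.sumProdDistrib a b (Fin 3)).symm.trans (e.prodCongr (Equiv.refl _))

/-- Splitting of configuration space. -/
noncomputable def J (e : a ⊕ b ≃ n) : WithLp 2 (Cfg a × Cfg b) ≃ₗᵢ[ℝ] Cfg n :=
  (PiLp.sumPiLpEquivProdLpPiLp 2 (fun _ : (a × Fin 3) ⊕ (b × Fin 3) => ℝ)).symm.trans
    (LinearIsometryEquiv.piLpCongrLeft 2 ℝ ℝ (idxE e))

lemma J_inl (e : a ⊕ b ≃ n) (x : Cfg a) (y : Cfg b) (i : a) (c : Fin 3) :
    (WithLp.ofLp (J e (WithLp.toLp 2 (x, y)))) (e (Sum.inl i), c) = WithLp.ofLp x (i, c) := by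
  have h : (idxE e).symm (e (Sum.inl i), c) = Sum.inl (i, c) := by
    rw [Equiv.symm_apply_eq]
    rfl
  simp [J, h]

lemma J_inr (e : a ⊕ b ≃ n) (x : Cfg a) (y : Cfg b) (j : b) (c : Fin 3) :
    (WithLp.ofLp (J e (WithLp.toLp 2 (x, y)))) (e (Sum.inr j), c) = WithLp.ofLp y (j, c) := by
  have h : (idxE e).symm (e (Sum.inr j), c) = Sum.inr (j, c) := by
    rw [Equiv.symm_apply_eq]
    rfl
  simp [J, h]

/-- Pull back of a Schwartz function to the split configuration space. -/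
noncomputable def pull (e : a ⊕ b ≃ n) (f : 𝓢(Cfg n, ℂ)) : 𝓢(WithLp 2 (Cfg a × Cfg b), ℂ) :=
  compCLMOfContinuousLinearEquiv ℂ (J e).toContinuousLinearEquiv f

lemma pull_apply (e : a ⊕ b ≃ n) (f : 𝓢(Cfg n, ℂ)) (z : WithLp 2 (Cfg a × Cfg b)) :
    pull e f z = f (J e z) := rfl

lemma fourier_pull (e : a ⊕ b ≃ n) (f : 𝓢(Cfg n, ℂ)) (z : WithLp 2 (Cfg a × Cfg b)) :
    𝓕 (pull e f) z = 𝓕 f (J e z) := by
  have h := Real.fourier_comp_linearIsometry (J e) (fun x => f x) z
  exact h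

lemma integral_J {G : Type*} [NormedAddCommGroup G] [NormedSpace ℝ G] (e : a ⊕ b ≃ n)
    (g : Cfg n → G) :
    ∫ x, g x = ∫ p : Cfg a × Cfg b, g (J e (WithLp.toLp 2 p)) := by
  rw [← (J e).measurePreserving.integral_comp (J e).toHomeomorph.measurableEmbedding]
  exact integral_withLp _

lemma integrable_J {G : Type*} [NormedAddCommGroup G] (e : a ⊕ b ≃ n)
    (g : Cfg n → G) :
    Integrable g ↔ Integrable (fun p : Cfg a × Cfg b => g (J e (WithLp.toLp 2 p))) := by
  rw [← (J e).measurePreserving.integrable_comp_emb (J e).toHomeomorph.measurableEmbedding]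
  exact integrable_withLp _

/-- The distance of particles `i` and `j`. -/
noncomputable def dd (x : Cfg n) (i j : n) : ℝ :=
  Real.sqrt (∑ c : Fin 3, (WithLp.ofLp x (i, c) - WithLp.ofLp x (j, c)) ^ 2)

/-- The distance of particle `i` to the point `P`. -/
noncomputable def dp (x : Cfg n) (i : n) (P : Fin 3 → ℝ) : ℝ :=
  Real.sqrt (∑ c : Fin 3, (WithLp.ofLp x (i, c) - P c) ^ 2)

/-- The momentum modulus of particle `i`. -/
noncomputable def mm (k : Cfg n) (i : n) : ℝ :=
  Real.sqrt (∑ c : Fin 3, (WithLp.ofLp k (i, c)) ^ 2)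

lemma dd_J (e : a ⊕ b ≃ n) (x : Cfg a) (y : Cfg b) (i j : a) :
    dd (J e (WithLp.toLp 2 (x, y))) (e (Sum.inl i)) (e (Sum.inl j)) = dd x i j := by
  simp only [dd, J_inl]

lemma dp_J (e : a ⊕ b ≃ n) (x : Cfg a) (y : Cfg b) (i : a) (P : Fin 3 → ℝ) :
    dp (J e (WithLp.toLp 2 (x, y))) (e (Sum.inl i)) P = dp x i P := by
  simp only [dp, J_inl]

lemma mm_J (e : a ⊕ b ≃ n) (x : Cfg a) (y : Cfg b) (i : a) :
    mm (J e (WithLp.toLp 2 (x, y))) (e (Sum.inl i)) = mm x i := by
  simp only [mm, J_inl]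

lemma dd_continuous (i j : n) : Continuous (fun x : Cfg n => dd x i j) := by
  unfold dd
  fun_prop

lemma dp_continuous (i : n) (P : Fin 3 → ℝ) : Continuous (fun x : Cfg n => dp x i P) := by
  unfold dp
  fun_prop

lemma mm_continuous (i : n) : Continuous (fun x : Cfg n => mm x i) := by
  unfold mm
  fun_prop

lemma mm_nonneg (x : Cfg n) (i : n) : 0 ≤ mm x i := Real.sqrt_nonneg _

lemma mm_le (x : Cfg n) (i : n) : mm x i ≤ ‖x‖ := by
  unfold mm
  rw [EuclideanSpace.norm_eq]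
  apply Real.sqrt_le_sqrt
  simp only [Real.norm_eq_abs, sq_abs]
  rw [Fintype.sum_prod_type]
  exact Finset.single_le_sum (f := fun j => ∑ c : Fin 3, (WithLp.ofLp x (j, c)) ^ 2)
    (fun j _ => Finset.sum_nonneg fun c _ => sq_nonneg _) (Finset.mem_univ i)

/-- Splitting off a single particle. -/
noncomputable def single (i : n) [DecidableEq n] : Unit ⊕ {j : n // j ≠ i} ≃ n :=
  ((Equiv.ofUnique Unit {j : n // j = i}).sumCongr (Equiv.refl _)).trans
    (Equiv.sumCompl (fun j => j = i))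

lemma single_inl [DecidableEq n] (i : n) (u : Unit) : single i (Sum.inl u) = i := by
  simp only [single, Equiv.trans_apply, Equiv.sumCongr_apply, Sum.map_inl,
    Equiv.sumCompl_apply_inl]
  exact ((Equiv.ofUnique Unit {j : n // j = i}) u).2

lemma single_inr [DecidableEq n] (i : n) (j : {j : n // j ≠ i}) :
    single i (Sum.inr j) = j.1 := by
  simp [single]

end

end Pool.Agent.Helper67
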