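import Pool.Agent.Helper67.FiberIneq

set_option autoImplicit false
set_option linter.unusedSectionVars false
open MeasureTheory FourierTransform SchwartzMap

namespace Pool.Agent.Helper67

section affine

variable {N : ℕ}

/-- Functions that are affine in each variable. -/
def Aff (f : (Fin N → ℝ) → ℝ) : Prop :=
  ∀ (w : Fin N → ℝ) (a : Fin N),
    f w = (1 - w a) * f (Function.update w a 0) + w a * f (Function.update w a 1)

lemma Aff.const (c : ℝ) : Aff (fun _ : Fin N → ℝ => c) := by
  intro w a
  ring

lemma Aff.add {f g : (Fin N → ℝ) → ℝ} (hf : Aff f) (hg : Aff g) : Aff (fun w => f w + g w) := by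
  intro w a
  have h1 := hf w a
  have h2 := hg w a
  simp only
  rw [h1, h2]
  ring

lemma Aff.sum {ι : Type*} (s : Finset ι) {f : ι → (Fin N → ℝ) → ℝ} (hf : ∀ i ∈ s, Aff (f i)) :
    Aff (fun w => ∑ i ∈ s, f i w) := by
  intro w a
  simp only
  rw [Finset.mul_sum, Finset.mul_sum, ← Finset.sum_add_distrib]
  exact Finset.sum_congr rfl fun i hi => hf i hi w a

lemma Aff.lin (i : Fin N) (c : ℝ) : Aff (fun w : Fin N → ℝ => w i * c) := by
  intro w a
  simp only
  by_cases h : i = a
  · subst h
    simp
  · rw [Function.update_of_ne h, Function.update_of_ne h]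
    ring

lemma Aff.quad (i j : Fin N) (hij : i ≠ j) (c : ℝ) :
    Aff (fun w : Fin N → ℝ => w i * w j * c) := by
  intro w a
  simp only
  by_cases h : i = a
  · subst h
    rw [Function.update_self, Function.update_self, Function.update_of_ne hij.symm,
      Function.update_of_ne hij.symm]
    ring
  · rw [Function.update_of_ne h, Function.update_of_ne h]
    by_cases h' : j = a
    · subst h'
      rw [Function.update_self, Function.update_self]
      ring
    · rw [Function.update_of_ne h', Function.update_of_ne h']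
      ring

/-- A multi-affine function which is nonnegative at the vertices of the cube is nonnegative on
the cube. -/
lemma Aff.nonneg {f : (Fin N → ℝ) → ℝ} (hf : Aff f)
    (hv : ∀ S : Finset (Fin N), 0 ≤ f (fun i => if i ∈ S then 1 else 0)) :
    ∀ w : Fin N → ℝ, (∀ i, 0 ≤ w i ∧ w i ≤ 1) → 0 ≤ f w := by
  have key : ∀ A : Finset (Fin N), ∀ w : Fin N → ℝ, (∀ i, 0 ≤ w i ∧ w i ≤ 1) →
      (∀ i ∉ A, w i = 0 ∨ w i = 1) → 0 ≤ f w := by
    intro A
    induction A using Finset.induction_on with
    | empty =>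
      intro w hw h01
      have : w = fun i => if i ∈ Finset.univ.filter (fun i => w i = 1) then 1 else 0 := by
        funext i
        rcases h01 i (by simp) with h | h <;> simp [h]
      rw [this]
      exact hv _
    | insert a A ha ih =>
      intro w hw h01
      rw [hf w a]
      have h1 : 0 ≤ f (Function.update w a 0) := by
        apply ih
        · intro i
          by_cases h : i = a
          · subst h; simp
          · rw [Function.update_of_ne h]; exact hw i
        · intro i hi
          by_cases h : i = a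
          · subst h; simp
          · rw [Function.update_of_ne h]
            exact h01 i (by simp [h, hi])
      have h2 : 0 ≤ f (Function.update w a 1) := by
        apply ih
        · intro i
          by_cases h : i = a
          · subst h; simp
          · rw [Function.update_of_ne h]; exact hw i
        · intro i hi
          by_cases h : i = a
          · subst h; simp
          · rw [Function.update_of_ne h]
            exact h01 i (by simp [h, hi])
      have := hw a
      exact add_nonneg (mul_nonneg (by linarith) h1) (mul_nonneg (by linarith) h2)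
  intro w hw
  exact key Finset.univ w hw (fun i hi => absurd (Finset.mem_univ i) hi)

end affine

/-- The equivalence splitting `Fin N` into a subset and its complement. -/
noncomputable def subE {N : ℕ} (S : Finset (Fin N)) :
    Fin S.card ⊕ {i : Fin N // i ∉ S} ≃ Fin N :=
  ((S.orderIsoOfFin rfl).toEquiv.sumCongr (Equiv.refl {i : Fin N // i ∉ S})).trans
    (Equiv.sumCompl (fun i => i ∈ S))

lemma subE_inl {N : ℕ} (S : Finset (Fin N)) (i : Fin S.card) :
    subE S (Sum.inl i) = S.orderEmbOfFin rfl i := by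
  simp [subE]

lemma sum_sub {N : ℕ} (S : Finset (Fin N)) (g : Fin N → ℝ) :
    ∑ i : Fin S.card, g (S.orderEmbOfFin rfl i) = ∑ i ∈ S, g i := by
  conv_rhs => rw [← Finset.map_orderEmbOfFin_univ S rfl]
  rw [Finset.sum_map]
  rfl

/-- Stability for all particle numbers. -/
def Stab (q : ℕ) (α z : ℝ) : Prop :=
  ∀ N K : ℕ, ∀ R : Fin K → Fin 3 → ℝ, Function.Injective R →
    ∀ ψ : (Fin N → Fin q) → 𝓢(Cfg (Fin N), ℂ), Anti ψ → 0 ≤ Qf R α z ψ

/-- Thinning: at fixed `α z`, stability at a larger `α` implies stability at a smaller `α`. -/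
theorem thinning (q : ℕ) (α₁ α₂ z₁ z₂ : ℝ) (h1 : 0 < α₁) (h12 : α₁ ≤ α₂)
    (hz : α₁ * z₁ = α₂ * z₂) (hst : Stab q α₂ z₂) : Stab q α₁ z₁ := by
  intro N K R hR ψ hψ
  have h2 : 0 < α₂ := h1.trans_le h12
  set p : ℝ := α₁ / α₂ with hp
  have hp0 : 0 < p := div_pos h1 h2
  have hp1 : p ≤ 1 := (div_le_one h2).mpr h12
  let f : (Fin N → ℝ) → ℝ := fun w =>
    ((∑ i, w i * (T ψ i - α₂ * z₂ * ∑ l, At ψ i (R l))) +
      (∑ i, ∑ j, w i * w j * (if i < j then α₂ * Vr ψ i j else 0))) +
      α₂ * (z₂ ^ 2 * Wn R * Nn ψ)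
  have hf : Aff f := by
    refine Aff.add (Aff.add ?_ ?_) (Aff.const _)
    · exact Aff.sum _ fun i _ => Aff.lin i _
    · refine Aff.sum _ fun i _ => Aff.sum _ fun j _ => ?_
      by_cases h : i = j
      · subst h
        simp only [lt_irrefl, if_false, mul_zero]
        exact Aff.const 0
      · exact Aff.quad i j h _
  have hv : ∀ S : Finset (Fin N), 0 ≤ f (fun i => if i ∈ S then 1 else 0) := by
    intro S
    have h := fiber_ineq R α₂ z₂ (hst S.card K R hR) (subE S) ψ hψ
    simp only [subE_inl] at h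
    have e1 : ∑ i : Fin S.card, T ψ (S.orderEmbOfFin rfl i) = ∑ i ∈ S, T ψ i :=
      sum_sub S (fun i => T ψ i)
    have e2 : ∑ i : Fin S.card, ∑ l, At ψ (S.orderEmbOfFin rfl i) (R l) =
        ∑ i ∈ S, ∑ l, At ψ i (R l) :=
      sum_sub S (fun i => ∑ l, At ψ i (R l))
    have e3 : (∑ i : Fin S.card, ∑ j : Fin S.card,
        if i < j then Vr ψ (S.orderEmbOfFin rfl i) (S.orderEmbOfFin rfl j) else 0) =
        ∑ i ∈ S, ∑ j ∈ S, if i < j then Vr ψ i j else 0 := by
      rw [← sum_sub S (fun i => ∑ j ∈ S, if i < j then Vr ψ i j else 0)]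
      refine Finset.sum_congr rfl fun i _ => ?_
      rw [← sum_sub S]
      refine Finset.sum_congr rfl fun j _ => ?_
      simp only [OrderEmbedding.lt_iff_lt]
    rw [e1, e2, e3] at h
    refine h.trans (le_of_eq ?_)
    simp only [f]
    have g1 : ∑ i, (if i ∈ S then (1 : ℝ) else 0) * (T ψ i - α₂ * z₂ * ∑ l, At ψ i (R l)) =
        (∑ i ∈ S, T ψ i) - α₂ * z₂ * ∑ i ∈ S, ∑ l, At ψ i (R l) := by
      simp only [ite_mul, one_mul, zero_mul]
      rw [← Finset.sum_filter, Finset.filter_univ_mem, Finset.sum_sub_distrib, Finset.mul_sum]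
    have g2 : ∑ i, ∑ j, (if i ∈ S then (1 : ℝ) else 0) * (if j ∈ S then (1 : ℝ) else 0) *
        (if i < j then α₂ * Vr ψ i j else 0) =
        α₂ * ∑ i ∈ S, ∑ j ∈ S, if i < j then Vr ψ i j else 0 := by
      rw [Finset.mul_sum]
      conv_rhs => rw [← Finset.filter_univ_mem S, Finset.sum_filter]
      refine Finset.sum_congr rfl fun i _ => ?_
      split_ifs with hi
      · rw [Finset.mul_sum, Finset.filter_univ_mem]
        conv_rhs => rw [← Finset.filter_univ_mem S, Finset.sum_filter]
        refine Finset.sum_congr rfl fun j _ => ?_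
        split_ifs <;> simp
      · simp
    rw [g1, g2]
    ring
  have hmain := hf.nonneg hv (fun _ => p) (fun _ => ⟨hp0.le, hp1⟩)
  have hfin : f (fun _ => p) = p * Qf R α₁ z₁ ψ := by
    rw [Qf_eq]
    simp only [f]
    have hα : α₁ = p * α₂ := by
      rw [hp]; field_simp
    have hzz : z₂ = p * z₁ := by
      have : p * α₂ * z₁ = α₂ * z₂ := by rw [← hα]; exact hz
      have h3 : α₂ * (p * z₁) = α₂ * z₂ := by linarith
      exact (mul_left_cancel₀ h2.ne' h3).symm
    have g1 : ∑ i, p * (T ψ i - α₂ * z₂ * ∑ l, At ψ i (R l)) =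
        p * ((∑ i, T ψ i) - α₂ * z₂ * ∑ i, ∑ l, At ψ i (R l)) := by
      rw [← Finset.mul_sum, Finset.sum_sub_distrib, Finset.mul_sum]
    have g2 : ∑ i, ∑ j, p * p * (if i < j then α₂ * Vr ψ i j else 0) =
        p * p * α₂ * ∑ i, ∑ j, if i < j then Vr ψ i j else 0 := by
      rw [Finset.mul_sum]
      refine Finset.sum_congr rfl fun i _ => ?_
      rw [Finset.mul_sum]
      refine Finset.sum_congr rfl fun j _ => ?_
      split_ifs <;> ring
    rw [g1, g2, hα, hzz]
    ring
  rw [hfin] at hmain
  exact nonneg_of_mul_nonneg_right hmain hp0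

end Pool.Agent.Helper67
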