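import Pool.Agent.Helper67.Thinning

set_option autoImplicit false
set_option linter.unusedSectionVars false
open MeasureTheory FourierTransform SchwartzMap
open scoped ContDiff

namespace Pool.Agent.Helper67

lemma norm_cfg_one (x : Cfg (Fin 1)) :
    ‖x‖ = Real.sqrt (∑ c : Fin 3, (WithLp.ofLp x (0, c)) ^ 2) := by
  rw [EuclideanSpace.norm_eq]
  simp only [Real.norm_eq_abs, sq_abs]
  rw [Fintype.sum_prod_type]
  simp

/-- A fixed nonzero test function. -/
lemma exists_test : ∃ f : 𝓢(Cfg (Fin 1), ℂ), HasCompactSupport f ∧ f 0 ≠ 0 := by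
  let g : ContDiffBump (0 : Cfg (Fin 1)) := ⟨1, 2, by norm_num, by norm_num⟩
  have hc : HasCompactSupport (fun x : Cfg (Fin 1) => ((g x : ℝ) : ℂ)) :=
    g.hasCompactSupport.comp_left (g := fun r : ℝ => (r : ℂ)) (by simp)
  have hs : ContDiff ℝ ∞ (fun x : Cfg (Fin 1) => ((g x : ℝ) : ℂ)) := by
    have := g.contDiff (n := (⊤ : ℕ∞))
    exact Complex.ofRealCLM.contDiff.comp this
  refine ⟨hc.toSchwartzMap hs, hc, ?_⟩
  have : g (0 : Cfg (Fin 1)) = 1 := g.one_of_mem_closedBall (by simp [g])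
  change ((g (0 : Cfg (Fin 1)) : ℝ) : ℂ) ≠ 0
  rw [this]
  simp

/-- Points on the first axis. -/
noncomputable def pt (t : ℝ) : Fin 3 → ℝ := fun c => if c = 0 then t else 0

lemma dp_pt_le (x : Cfg (Fin 1)) (t : ℝ) (ht0 : 0 ≤ t) (ht : t ≤ 1) :
    dp x 0 (pt t) ≤ ‖x‖ + 1 := by
  let P : Cfg (Fin 1) := WithLp.toLp 2 (fun p => pt t p.2)
  have h1 : dp x 0 (pt t) = ‖x - P‖ := by
    rw [norm_cfg_one]
    rfl
  have h2 : ‖P‖ = t := by
    rw [norm_cfg_one]
    simp only [P, pt, Fin.sum_univ_three]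
    simp [Real.sqrt_sq ht0]
  rw [h1]
  exact (norm_sub_le _ _).trans (by linarith)

lemma dp_pt_pos (t : ℝ) : ∀ᵐ x : Cfg (Fin 1), 0 < dp x 0 (pt t) := by
  let P : Cfg (Fin 1) := WithLp.toLp 2 (fun p => pt t p.2)
  have h : ∀ᵐ x : Cfg (Fin 1), x ≠ P := by
    rw [ae_iff]
    simp
  filter_upwards [h] with x hx
  have h1 : dp x 0 (pt t) = ‖x - P‖ := by
    rw [norm_cfg_one]
    rfl
  rw [h1]
  exact norm_pos_iff.mpr (sub_ne_zero.mpr hx)

/-- For a fixed effective coupling `c = α z > 0` the system is unstable for large `α`. -/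
theorem exists_unstable (q : ℕ) (hq : 0 < q) (c : ℝ) (hc : 0 < c) :
    ∃ α : ℝ, 0 < α ∧ ¬ Stab q α (c / α) := by
  obtain ⟨f, hfc, hf0⟩ := exists_test
  set δ : ℝ := ∫ x : Cfg (Fin 1), (1 / (‖x‖ + 1)) * ‖f x‖ ^ 2 with hδ
  have hδpos : 0 < δ := by
    apply Continuous.integral_pos_of_hasCompactSupport_nonneg_nonzero (x := (0 : Cfg (Fin 1)))
    · have : Continuous (fun x : Cfg (Fin 1) => f x) := f.continuous
      refine Continuous.mul (continuous_const.div (by fun_prop) ?_) (by fun_prop)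
      intro x
      positivity
    · have h1 : HasCompactSupport (fun x : Cfg (Fin 1) => ‖f x‖ ^ 2) :=
        hfc.comp_left (g := fun w : ℂ => ‖w‖ ^ 2) (by simp)
      exact h1.mul_left
    · intro x
      positivity
    · have : ‖f 0‖ ≠ 0 := norm_ne_zero_iff.mpr hf0
      simp [hf0]
  have hδint : Integrable (fun x : Cfg (Fin 1) => (1 / (‖x‖ + 1)) * ‖f x‖ ^ 2) := by
    apply weight_integrable f (A := 1)
    · refine continuous_const.div (by fun_prop) ?_
      intro x
      positivity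
    · intro x
      rw [abs_of_nonneg (by positivity), one_mul]
      rw [div_le_iff₀ (by positivity)]
      nlinarith [norm_nonneg x]
  have hatt : ∀ t : ℝ, 0 ≤ t → t ≤ 1 → δ ≤ att f 0 (pt t) := by
    intro t h0 h1
    apply integral_mono_ae hδint (att_integrable f 0 (pt t))
    filter_upwards [dp_pt_pos t] with x hx
    have h2 := dp_pt_le x t h0 h1
    have h3 : 1 / (‖x‖ + 1) ≤ 1 / dp x 0 (pt t) := one_div_le_one_div_of_le hx h2
    exact mul_le_mul_of_nonneg_right h3 (by positivity)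
  obtain ⟨K, hK⟩ := exists_nat_gt ((kin f 0 + 1) / (c * δ))
  let R : Fin K → Fin 3 → ℝ := fun l => pt (1 / ((l : ℝ) + 1))
  have hRinj : Function.Injective R := by
    intro l m hlm
    have h0 := congrFun hlm 0
    simp only [R, pt, if_true] at h0
    have h1 : ((l : ℕ) : ℝ) + 1 = ((m : ℕ) : ℝ) + 1 := by
      have := congrArg (fun r : ℝ => 1 / r) h0
      simpa using this
    have h2 : ((l : ℕ) : ℝ) = ((m : ℕ) : ℝ) := by linarith
    exact Fin.ext (by exact_mod_cast h2)
  have hWn := Wn_nonneg R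
  have hnrm : 0 ≤ nrm f := integral_nonneg fun x => by positivity
  set B : ℝ := c ^ 2 * Wn R * nrm f with hB
  have hB0 : 0 ≤ B := by positivity
  refine ⟨B + 1, by linarith, fun hst => ?_⟩
  set α : ℝ := B + 1 with hα
  have hαpos : 0 < α := by linarith
  have hq' : Nonempty (Fin q) := ⟨⟨0, hq⟩⟩
  have hA : Anti (q := q) (fun _ : Fin 1 → Fin q => f) := by
    intro π' σ x
    have hπ : π' = 1 := Subsingleton.elim _ _
    subst hπ
    simp
  have h := hst 1 K R hRinj _ hA
  rw [Qf_eq_sum] at h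
  simp only [Finset.sum_const, Finset.univ_unique, Fin.default_eq_zero, Finset.sum_singleton,
    lt_irrefl, if_false] at h
  rw [nsmul_eq_mul] at h
  have hcard : (0 : ℝ) < ((Finset.univ : Finset (Fin 1 → Fin q)).card : ℝ) := by
    have : 0 < (Finset.univ : Finset (Fin 1 → Fin q)).card := by
      rw [Finset.card_univ]
      exact Fintype.card_pos
    exact_mod_cast this
  have h' := nonneg_of_mul_nonneg_right h hcard
  have hsum : (K : ℝ) * δ ≤ ∑ l : Fin K, att f 0 (R l) := by
    have : ∑ l : Fin K, δ ≤ ∑ l : Fin K, att f 0 (R l) := by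
      apply Finset.sum_le_sum
      intro l _
      apply hatt
      · positivity
      · rw [div_le_one (by positivity)]
        have : (0 : ℝ) ≤ ((l : ℕ) : ℝ) := by positivity
        linarith
    simpa using this
  have hK' : kin f 0 + 1 < c * (K * δ) := by
    rw [div_lt_iff₀ (by positivity)] at hK
    linarith
  have e1 : α * (0 - c / α * ∑ l : Fin K, att f 0 (R l) + (c / α) ^ 2 * Wn R * nrm f) =
      - (c * ∑ l : Fin K, att f 0 (R l)) + B / α := by
    rw [hB]
    field_simp
    ring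
  rw [e1] at h'
  have e2 : B / α ≤ 1 := by
    rw [div_le_one hαpos]
    linarith
  have e3 : c * (K * δ) ≤ c * ∑ l : Fin K, att f 0 (R l) :=
    mul_le_mul_of_nonneg_left hsum hc.le
  linarith

end Pool.Agent.Helper67
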